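import Mathlib

/-!
The greedy planar walk `z_n = z_{n-1} + ε_n e^{2πiαn}`, where the sign makes `|z_n|` smaller:
definitions and basic tools.
-/

namespace Q180.Walk

open Complex

/-- `(Z, ε)` is the infinite greedy walk with rotation number `α` and starting point `w`.
Indices are shifted by one: `Z 0 = w` is `z_{-1}` and `Z (n+1)` is `z_n`, so that
`z_n = z_{n-1} + ε_n e^{2πiαn}` for `n = 0, 1, 2, …`, and `ε_n ∈ {1,-1}` is the sign that makes
`|z_n|` strictly smaller than the other choice of sign would do (in particular no tie occurs,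
that is, the pair `(α, w)` is admissible). -/
structure IsGreedyWalk (α : ℝ) (w : ℂ) (Z : ℕ → ℂ) (ε : ℕ → ℤ) : Prop where
  start : Z 0 = w
  sign : ∀ n, ε n = 1 ∨ ε n = -1
  step : ∀ n, Z (n + 1) = Z n + (ε n : ℂ) * exp (2 * Real.pi * I * α * n)
  smaller : ∀ n, ‖Z n + (ε n : ℂ) * exp (2 * Real.pi * I * α * n)‖
      < ‖Z n - (ε n : ℂ) * exp (2 * Real.pi * I * α * n)‖

/-- The eventual periods of a sequence: all `p ≥ 1` such that `ε (n + p) = ε n` for all large
`n`. The least element is the period of an eventually periodic sequence. -/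
def evPeriods (ε : ℕ → ℤ) : Set ℕ := {p | 1 ≤ p ∧ ∃ N, ∀ n, N ≤ n → ε (n + p) = ε n}

theorem isGreedyWalk_of_rotating {α : ℝ} {u : ℕ → ℂ} {s : ℕ → ℤ}
    (hs : ∀ n, s n = 1 ∨ s n = -1)
    (hu : ∀ n, u (n + 1) = exp (-(2 * Real.pi * I * α)) * (u n - s n))
    (hpos : ∀ n, 0 < (s n : ℝ) * (u n).re) :
    IsGreedyWalk α (u 0) (fun n => u n * exp (2 * Real.pi * I * α * n)) (fun n => - s n) where
  start := by simp
  sign := by
    intro n
    rcases hs n with h | h <;> simp [h]
  step := by
    intro n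
    have e : exp (2 * Real.pi * I * α * ((n + 1 : ℕ) : ℂ))
        = exp (2 * Real.pi * I * α) * exp (2 * Real.pi * I * α * n) := by
      rw [← Complex.exp_add]; congr 1; push_cast; ring
    have e2 : exp (-(2 * Real.pi * I * α)) * exp (2 * Real.pi * I * α) = 1 := by
      rw [← Complex.exp_add]; simp
    simp only [e, hu n]
    push_cast
    linear_combination (u n - s n) * exp (2 * Real.pi * I * α * n) * e2
  smaller := by
    intro n
    set e := exp (2 * Real.pi * I * α * n) with he
    have hne : ‖e‖ = 1 := by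
      rw [he, Complex.norm_exp]; simp
    have h1 : u n * e + ((- s n : ℤ) : ℂ) * e = (u n - s n) * e := by push_cast; ring
    have h2 : u n * e - ((- s n : ℤ) : ℂ) * e = (u n + s n) * e := by push_cast; ring
    show ‖u n * e + ((- s n : ℤ) : ℂ) * e‖ < ‖u n * e - ((- s n : ℤ) : ℂ) * e‖
    rw [h1, h2, norm_mul, norm_mul, hne, mul_one, mul_one]
    refine lt_of_pow_lt_pow_left₀ 2 (norm_nonneg _) ?_
    rw [← Complex.normSq_eq_norm_sq, ← Complex.normSq_eq_norm_sq, Complex.normSq_apply,
      Complex.normSq_apply]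
    have := hpos n
    simp only [sub_re, sub_im, add_re, add_im, intCast_re, intCast_im]
    nlinarith

theorem evPeriods_neg (s : ℕ → ℤ) : evPeriods (fun n => - s n) = evPeriods s := by
  ext p; simp [evPeriods]

theorem per_mul {s : ℕ → ℤ} {p : ℕ} (hper : ∀ n, s (n + p) = s n) (j N : ℕ) :
    s (j + N * p) = s j := by
  induction N with
  | zero => simp
  | succ N ih => rw [Nat.succ_mul, ← add_assoc, hper, ih]

theorem isLeast_evPeriods {s : ℕ → ℤ} {p : ℕ} (hp : 1 ≤ p) (hper : ∀ n, s (n + p) = s n)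
    (hmin : ∀ r, 1 ≤ r → r < p → ∃ j, s (j + r) ≠ s j) : IsLeast (evPeriods s) p := by
  refine ⟨⟨hp, 0, fun n _ => hper n⟩, ?_⟩
  rintro q ⟨hq, N, hN⟩
  by_contra hlt
  push Not at hlt
  obtain ⟨j, hj⟩ := hmin q hq hlt
  apply hj
  have h1 := hN (j + N * p) (by nlinarith)
  have h2 : s (j + N * p + q) = s (j + q) := by
    have : j + N * p + q = (j + q) + N * p := by ring
    rw [this, per_mul hper]
  rw [h2, per_mul hper] at h1
  exact h1

end Q180.Walk
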