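import Pool.Agent.Q180.Walk.Basic

/-!
A family of greedy walks with `α` close to `1/5` and sign period `20 l + 8`.
-/

namespace Q180.Walk

open Complex Filter Topology

/-- `E h x = exp (-i h x)`. -/
noncomputable def E (h x : ℝ) : ℂ := exp (-((h * x : ℝ) : ℂ) * I)

theorem E_add (h x y : ℝ) : E h (x + y) = E h x * E h y := by
  unfold E; rw [← Complex.exp_add]; congr 1; push_cast; ring

theorem E_zero (h : ℝ) : E h 0 = 1 := by simp [E]

theorem E_eq (h x : ℝ) : E h x = (Real.cos (h * x) : ℂ) - (Real.sin (h * x) : ℂ) * I := by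
  unfold E
  rw [show -((h * x : ℝ) : ℂ) * I = ((-(h * x) : ℝ) : ℂ) * I by push_cast; ring, exp_mul_I,
    ← ofReal_cos, ← ofReal_sin, Real.cos_neg, Real.sin_neg]
  push_cast; ring

/-- The radius. -/
noncomputable def R (n : ℕ) (h : ℝ) : ℝ :=
  (2 * Real.cos (2 * h) - 1) / (2 * Real.sin h * Real.cos (n * h))

/-- The points with positive real part on the long arc. -/
noncomputable def v (n : ℕ) (h : ℝ) (j : ℕ) : ℂ :=
  I / 2 * E h 1 / (Real.sin h : ℂ) - I * (R n h : ℂ) * E h (2 * j + 3 - n)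

/-- One half cycle. -/
noncomputable def V (n : ℕ) (h : ℝ) (j : ℕ) : ℂ :=
  if j + 2 ≤ n then v n h j else E h 2 * (v n h (n - 2) + 1)

/-- Signs of one half cycle. -/
def T (n : ℕ) (j : ℕ) : ℤ := if j + 2 = n then -1 else 1

/-- The full sequences. -/
noncomputable def u (n : ℕ) (h : ℝ) (m : ℕ) : ℂ := (-1) ^ (m / n) * V n h (m % n)

/-- The signs. -/
def s (n : ℕ) (m : ℕ) : ℤ := (-1) ^ (m / n) * T n (m % n)

theorem v_re (n : ℕ) {h : ℝ} (hs : Real.sin h ≠ 0) (j : ℕ) :
    (v n h j).re = 1 / 2 - R n h * Real.sin (h * (2 * j + 3 - n)) := by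
  have hs' : (Real.sin h : ℂ) ≠ 0 := by exact_mod_cast hs
  have e : v n h j = ((1 / 2 - R n h * Real.sin (h * (2 * j + 3 - n)) : ℝ) : ℂ)
      + ((Real.cos h / (2 * Real.sin h) - R n h * Real.cos (h * (2 * j + 3 - n)) : ℝ) : ℂ)
        * I := by
    unfold v
    rw [E_eq, E_eq, mul_one]
    push_cast at *
    field_simp
    linear_combination (- Complex.sin h + 2 * Complex.sin h * (R n h : ℂ)
      * Complex.sin (h * (2 * j + 3 - n))) * Complex.I_sq
  rw [e, add_re, ofReal_re, mul_I_re, ofReal_im]; ring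

theorem v_step (n : ℕ) {h : ℝ} (hs : Real.sin h ≠ 0) (j : ℕ) :
    v n h (j + 1) = E h 2 * (v n h j - 1) := by
  have hs' : (Real.sin h : ℂ) ≠ 0 := by exact_mod_cast hs
  unfold v
  have e1 : E h (2 * ((j + 1 : ℕ) : ℝ) + 3 - n) = E h 2 * E h (2 * j + 3 - n) := by
    rw [← E_add]; congr 1; push_cast; ring
  have e2 : E h 2 = E h 1 * E h 1 := by rw [← E_add]; norm_num
  have e3 : E h 1 * E h (-1) = 1 := by rw [← E_add]; norm_num [E_zero]
  have e4 : 2 * I * (Real.sin h : ℂ) = E h (-1) - E h 1 := by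
    rw [E_eq, E_eq]; simp only [mul_neg, mul_one, Real.cos_neg, Real.sin_neg]; push_cast; ring
  rw [e1, e2]
  field_simp
  linear_combination (- I * E h 1) * e3 - I * E h 1 ^ 2 * e4
    + 2 * E h 1 ^ 2 * (Real.sin h : ℂ) * Complex.I_sq

theorem closure (n : ℕ) {h : ℝ} (hs : Real.sin h ≠ 0) (hc : Real.cos (n * h) ≠ 0)
    (hn : 2 ≤ n) : E h 2 * (E h 2 * (v n h (n - 2) + 1) - 1) = - v n h 0 := by
  have hs' : (Real.sin h : ℂ) ≠ 0 := by exact_mod_cast hs
  have hc' : (Real.cos (n * h) : ℂ) ≠ 0 := by exact_mod_cast hc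
  unfold v
  have ek : ((n - 2 : ℕ) : ℝ) = n - 2 := by push_cast [hn]; ring
  have e1 : E h (2 * ((n - 2 : ℕ) : ℝ) + 3 - n) = E h (-1) * E h n := by
    rw [← E_add, ek]; congr 1; ring
  have e1' : E h (2 * ((0 : ℕ) : ℝ) + 3 - n) = E h 1 * E h 1 * E h 1 * E h (-n) := by
    rw [← E_add, ← E_add, ← E_add]; congr 1; push_cast; ring
  have e2 : E h 2 = E h 1 * E h 1 := by rw [← E_add]; norm_num
  have e3 : E h 1 * E h (-1) = 1 := by rw [← E_add]; norm_num [E_zero]
  have e4 : 2 * I * (Real.sin h : ℂ) = E h (-1) - E h 1 := by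
    rw [E_eq, E_eq]; simp only [mul_neg, mul_one, Real.cos_neg, Real.sin_neg]; push_cast; ring
  have e4' : 2 * (Real.sin h : ℂ) = - I * (E h (-1) - E h 1) := by
    linear_combination (- I) * e4 + 2 * (Real.sin h : ℂ) * Complex.I_sq
  have e5 : 2 * (Real.cos (2 * h) : ℂ) = E h 1 * E h 1 + E h (-1) * E h (-1) := by
    rw [← E_add, ← E_add, E_eq, E_eq, show h * (1 + 1) = 2 * h by ring,
      show h * (-1 + -1) = -(2 * h) by ring, Real.cos_neg, Real.sin_neg]
    push_cast; ring
  have e6 : 2 * (Real.cos (n * h) : ℂ) = E h n + E h (-n) := by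
    rw [E_eq, E_eq, mul_neg, Real.cos_neg, Real.sin_neg, mul_comm (n : ℝ) h]
    push_cast; ring
  have eR : (R n h : ℂ) = (2 * (Real.cos (2 * h) : ℂ) - 1)
      / (2 * (Real.sin h : ℂ) * (Real.cos (n * h) : ℂ)) := by
    unfold R; push_cast; ring
  have e7 : (R n h : ℂ) * (E h n + E h (-n)) = (2 * (Real.cos (2 * h) : ℂ) - 1) / Real.sin h := by
    have aux : ∀ a S c : ℂ, S ≠ 0 → c ≠ 0 → a / (2 * S * c) * (2 * c) = a / S := by
      intro a S c h1 h2; field_simp
    rw [← e6, eR]
    exact aux _ _ _ hs' hc'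
  have e8 : I * E h 1 ^ 3 * ((2 * (Real.cos (2 * h) : ℂ) - 1) / Real.sin h)
      = I / 2 * E h 1 / (Real.sin h : ℂ) * (1 + E h 1 ^ 4) + E h 1 ^ 4 - E h 1 ^ 2 := by
    rw [e5]
    have : (I * E h 1 ^ 3 * (E h 1 * E h 1 + E h (-1) * E h (-1) - 1)) * 2
        = I * E h 1 * (1 + E h 1 ^ 4) + 2 * (Real.sin h : ℂ) * (E h 1 ^ 4 - E h 1 ^ 2) := by
      linear_combination (- (E h 1 ^ 4 - E h 1 ^ 2)) * e4'
        + I * (E h 1 + 2 * E h 1 ^ 2 * E h (-1) + E h 1 ^ 3) * e3
    have h2 : I * E h 1 ^ 3 * ((E h 1 * E h 1 + E h (-1) * E h (-1) - 1) / Real.sin h)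
        = (I * E h 1 ^ 3 * (E h 1 * E h 1 + E h (-1) * E h (-1) - 1)) * 2
          / (2 * (Real.sin h : ℂ)) := by
      field_simp
    rw [h2, this]
    field_simp
    ring
  rw [e1, e1', e2]
  linear_combination - e8 - I * E h 1 ^ 3 * e7 - I * (R n h : ℂ) * E h 1 ^ 3 * E h n * e3

/-- The conditions on the angle `h = πα`. -/
structure Good (n : ℕ) (h : ℝ) : Prop where
  sin_ne : Real.sin h ≠ 0
  cos_ne : Real.cos (n * h) ≠ 0
  low : ∀ j : ℕ, j + 3 ≤ n → R n h * Real.sin (h * (2 * j + 3 - n)) < 1 / 2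
  top_gt : 1 / 2 < R n h * Real.sin (h * (n - 1))
  top_lt : R n h * Real.sin (h * (n - 1)) < 3 / 2

theorem V_step {n : ℕ} {h : ℝ} (hg : Good n h) (hn : 2 ≤ n) {j : ℕ} (hj : j + 1 < n) :
    V n h (j + 1) = E h 2 * (V n h j - T n j) := by
  rcases Nat.lt_or_ge (j + 2) n with h1 | h1
  · have e1 : V n h (j + 1) = v n h (j + 1) := by unfold V; rw [if_pos (by omega)]
    have e2 : V n h j = v n h j := by unfold V; rw [if_pos (by omega)]
    have e3 : T n j = 1 := by unfold T; rw [if_neg (by omega)]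
    rw [e1, e2, e3, v_step n hg.sin_ne]; push_cast; ring
  · have hjn : j = n - 2 := by omega
    subst hjn
    have e1 : V n h (n - 2 + 1) = E h 2 * (v n h (n - 2) + 1) := by
      unfold V; rw [if_neg (by omega)]
    have e2 : V n h (n - 2) = v n h (n - 2) := by unfold V; rw [if_pos (by omega)]
    have e3 : T n (n - 2) = -1 := by unfold T; rw [if_pos (by omega)]
    rw [e1, e2, e3]; push_cast; ring

theorem V_last {n : ℕ} {h : ℝ} (hg : Good n h) (hn : 2 ≤ n) :
    - V n h 0 = E h 2 * (V n h (n - 1) - T n (n - 1)) := by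
  have e1 : V n h (n - 1) = E h 2 * (v n h (n - 2) + 1) := by
    unfold V; rw [if_neg (by omega)]
  have e2 : V n h 0 = v n h 0 := by unfold V; rw [if_pos (by omega)]
  have e3 : T n (n - 1) = 1 := by unfold T; rw [if_neg (by omega)]
  rw [e1, e2, e3, ← closure n hg.sin_ne hg.cos_ne hn]; push_cast; ring

theorem u_step {n : ℕ} {h : ℝ} (hg : Good n h) (hn : 2 ≤ n) (m : ℕ) :
    u n h (m + 1) = E h 2 * (u n h m - s n m) := by
  have hlt : m % n < n := Nat.mod_lt _ (by omega)
  rcases Nat.lt_or_ge (m % n + 1) n with h1 | h1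
  · have e1 : (m + 1) % n = m % n + 1 := by
      rw [Nat.add_mod, Nat.mod_eq_of_lt (show 1 < n by omega), Nat.mod_eq_of_lt h1]
    have e2 : (m + 1) / n = m / n := by
      rw [Nat.succ_div_of_not_dvd]
      intro hd
      have := Nat.mod_eq_zero_of_dvd hd
      omega
    unfold u s
    rw [e1, e2, V_step hg hn h1]
    push_cast; ring
  · have hmn : m % n = n - 1 := by omega
    have hd : n ∣ m + 1 := by
      apply Nat.dvd_of_mod_eq_zero
      rw [Nat.add_mod, hmn]
      rcases Nat.lt_or_ge 1 n with h2 | h2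
      · rw [Nat.mod_eq_of_lt h2, Nat.sub_add_cancel (by omega), Nat.mod_self]
      · omega
    have e1 : (m + 1) % n = 0 := Nat.mod_eq_zero_of_dvd hd
    have e2 : (m + 1) / n = m / n + 1 := Nat.succ_div_of_dvd hd
    unfold u s
    rw [e1, e2, hmn, pow_succ]
    have := V_last hg hn
    push_cast
    linear_combination (-1) ^ (m / n) * this

theorem T_sign (n j : ℕ) : T n j = 1 ∨ T n j = -1 := by
  unfold T; split_ifs <;> simp

theorem V_pos {n : ℕ} {h : ℝ} (hg : Good n h) (hn : 2 ≤ n) {j : ℕ} (hj : j < n) :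
    0 < (T n j : ℝ) * (V n h j).re := by
  rcases lt_trichotomy (j + 2) n with h1 | h1 | h1
  · have e2 : V n h j = v n h j := by unfold V; rw [if_pos (by omega)]
    have e3 : T n j = 1 := by unfold T; rw [if_neg (by omega)]
    rw [e2, e3, v_re n hg.sin_ne]
    have := hg.low j (by omega)
    push_cast; linarith
  · have e2 : V n h j = v n h j := by unfold V; rw [if_pos (by omega)]
    have e3 : T n j = -1 := by unfold T; rw [if_pos (by omega)]
    rw [e2, e3, v_re n hg.sin_ne]
    have := hg.top_gt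
    have hj' : (2 * (j : ℝ) + 3 - n) = n - 1 := by
      have : (n : ℝ) = j + 2 := by rw [← h1]; push_cast; ring
      rw [this]; ring
    rw [hj']
    push_cast; linarith
  · have hjn : j = n - 1 := by omega
    subst hjn
    have e3 : T n (n - 1) = 1 := by unfold T; rw [if_neg (by omega)]
    have e0 := V_last hg hn
    have e2 : V n h 0 = v n h 0 := by unfold V; rw [if_pos (by omega)]
    have eE : E h (-2) * E h 2 = 1 := by rw [← E_add]; norm_num [E_zero]
    have e5 : V n h (n - 1) = 1 - E h (-2) * v n h 0 := by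
      rw [e2, e3] at e0
      push_cast at e0
      linear_combination (-(V n h (n - 1) - 1)) * eE - E h (-2) * e0
    have e6 : (E h (-2) * v n h 0).re
        = -1 / 2 + R n h * Real.sin (h * (n - 1)) := by
      have hs' : (Real.sin h : ℂ) ≠ 0 := by exact_mod_cast hg.sin_ne
      have e7 : E h (-2) * v n h 0
          = I / 2 * E h (-1) / (Real.sin h : ℂ) - I * (R n h : ℂ) * E h (1 - n) := by
        unfold v
        have a1 : E h (-1) = E h (-2) * E h 1 := by rw [← E_add]; norm_num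
        have a2 : E h (1 - n) = E h (-2) * E h (2 * ((0 : ℕ) : ℝ) + 3 - n) := by
          rw [← E_add]; congr 1; push_cast; ring
        rw [a1, a2]; ring
      have e8 : E h (-2) * v n h 0 = ((-1 / 2 + R n h * Real.sin (h * (n - 1)) : ℝ) : ℂ)
          + ((Real.cos h / (2 * Real.sin h) - R n h * Real.cos (h * (n - 1)) : ℝ) : ℂ)
            * I := by
        rw [e7, E_eq, E_eq, show h * (1 - (n : ℝ)) = -(h * (n - 1)) by ring, Real.cos_neg,
          Real.sin_neg, mul_neg, Real.cos_neg, Real.sin_neg, mul_one]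
        push_cast at *
        field_simp
        linear_combination (Complex.sin h - 2 * Complex.sin h * (R n h : ℂ)
          * Complex.sin (h * (n - 1))) * Complex.I_sq
      rw [e8, add_re, ofReal_re, mul_I_re, ofReal_im]; ring
    rw [e3, e5, sub_re, e6]
    have := hg.top_lt
    push_cast
    norm_num
    linarith

theorem u_pos {n : ℕ} {h : ℝ} (hg : Good n h) (hn : 2 ≤ n) (m : ℕ) :
    0 < (s n m : ℝ) * (u n h m).re := by
  have hlt : m % n < n := Nat.mod_lt _ (by omega)
  have h1 := V_pos hg hn hlt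
  rcases Nat.even_or_odd (m / n) with he | he
  · have : u n h m = V n h (m % n) := by unfold u; rw [he.neg_one_pow]; ring
    have h2 : s n m = T n (m % n) := by unfold s; rw [he.neg_one_pow]; ring
    rw [this, h2]; exact h1
  · have : u n h m = - V n h (m % n) := by unfold u; rw [he.neg_one_pow]; ring
    have h2 : s n m = - T n (m % n) := by unfold s; rw [he.neg_one_pow]; ring
    rw [this, h2, neg_re]
    push_cast
    linarith

theorem s_sign (n m : ℕ) : s n m = 1 ∨ s n m = -1 := by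
  unfold s
  rcases Nat.even_or_odd (m / n) with he | he <;> rcases T_sign n (m % n) with h | h <;>
    simp [he.neg_one_pow, h]

theorem s_low {n m : ℕ} (h : m < n) : s n m = T n m := by
  unfold s; rw [Nat.div_eq_of_lt h, Nat.mod_eq_of_lt h]; simp

theorem s_high {n m : ℕ} (h : m < n) : s n (n + m) = - T n m := by
  have hn : 0 < n := by omega
  unfold s
  rw [Nat.add_div_left _ hn, Nat.add_mod_left, Nat.div_eq_of_lt h, Nat.mod_eq_of_lt h]; simp

theorem s_per {n : ℕ} (hn : 0 < n) (m : ℕ) : s n (m + 2 * n) = s n m := by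
  unfold s
  rw [Nat.add_mul_div_right _ _ hn, Nat.add_mul_mod_self_right, pow_add]; simp

theorem s_aper {n : ℕ} (hn : 4 ≤ n) (r : ℕ) (h1 : 1 ≤ r) (h2 : r < 2 * n) :
    ∃ j, s n (j + r) ≠ s n j := by
  have T1 : ∀ j, j + 2 ≠ n → T n j = 1 := fun j hj => by unfold T; rw [if_neg hj]
  have T2 : T n (n - 2) = -1 := by unfold T; rw [if_pos (by omega)]
  rcases lt_or_ge r (n - 1) with ha | ha
  · -- compare with position `n - 2`
    refine ⟨n - 2 - r, ?_⟩
    rw [Nat.sub_add_cancel (by omega), s_low (show n - 2 < n by omega),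
      s_low (show n - 2 - r < n by omega), T2, T1 _ (by omega)]
    norm_num
  rcases eq_or_lt_of_le ha with hb | hb
  · refine ⟨1, ?_⟩
    have : 1 + r = n + 0 := by omega
    rw [this, s_high (by omega), s_low (by omega), T1 _ (by omega), T1 _ (by omega)]
    norm_num
  rcases lt_or_ge r (2 * n - 2) with hc | hc
  · refine ⟨0, ?_⟩
    have : 0 + r = n + (r - n) := by omega
    rw [this, s_high (by omega), s_low (by omega), T1 _ (by omega), T1 _ (by omega)]
    norm_num
  rcases eq_or_lt_of_le hc with hd | hd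
  · refine ⟨1, ?_⟩
    have : 1 + r = n + (n - 1) := by omega
    rw [this, s_high (by omega), s_low (by omega), T1 _ (by omega), T1 _ (by omega)]
    norm_num
  · refine ⟨0, ?_⟩
    have : 0 + r = n + (n - 1) := by omega
    rw [this, s_high (by omega), s_low (by omega), T1 _ (by omega), T1 _ (by omega)]
    norm_num

theorem walk_of_good {n : ℕ} {α : ℝ} (hg : Good n (Real.pi * α)) (hn : 4 ≤ n) :
    ∃ (w : ℂ) (Z : ℕ → ℂ) (ε : ℕ → ℤ), IsGreedyWalk α w Z ε ∧ IsLeast (evPeriods ε) (2 * n) := by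
  refine ⟨_, _, _, isGreedyWalk_of_rotating (u := u n (Real.pi * α)) (s := s n) (s_sign n) ?_
    (u_pos hg (by omega)), ?_⟩
  · intro m
    have : exp (-(2 * Real.pi * I * α)) = E (Real.pi * α) 2 := by
      unfold E; congr 1; push_cast; ring
    rw [this]; exact u_step hg (by omega) m
  · rw [evPeriods_neg]
    exact isLeast_evPeriods (by omega) (s_per (by omega)) (fun r h1 h2 => s_aper hn r h1 h2)

end Q180.Walk
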