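import Pool.Agent.Q180.Walk.Fam

/-!
Existence of good angles close to `π/5`.
-/

namespace Q180.Walk

open Real Filter Topology Set

theorem trig_pos (l : ℕ) {h : ℝ} (hlt : h < π / 5) (hgt : (π / 5 - h) * (10 * l + 3) ≤ π / 10)
    (d : ℕ) (hd1 : 1 ≤ d) (hd2 : d ≤ 10 * l + 2) :
    0 < cos ((10 * l + 3 - d) * h) * sin (d * h) := by
  obtain ⟨a, b, hb, hab⟩ : ∃ a b : ℕ, b < 5 ∧ d = 5 * a + b :=
    ⟨d / 5, d % 5, Nat.mod_lt _ (by norm_num), by omega⟩
  have hπ := Real.pi_pos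
  set e := π / 5 - h with he
  have he0 : 0 < e := by rw [he]; linarith
  have hh : h = π / 5 - e := by rw [he]; ring
  have hd1' : (1 : ℝ) ≤ d := by exact_mod_cast hd1
  have hd2' : (d : ℝ) ≤ 10 * l + 2 := by exact_mod_cast hd2
  have hdab : (d : ℝ) = 5 * a + b := by exact_mod_cast hab
  set t := (d : ℝ) * e with ht
  set t' := (10 * l + 3 - (d : ℝ)) * e with ht'
  have ht0 : 0 < t := by rw [ht]; positivity
  have ht0' : 0 < t' := by
    rw [ht']
    have : (0 : ℝ) < 10 * l + 3 - (d : ℝ) := by linarith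
    positivity
  have htt : t + t' ≤ π / 10 := by
    rw [ht, ht']; nlinarith
  have e1 : sin (d * h) = (-1) ^ a * sin (b * (π / 5) - t) := by
    rw [← Real.sin_add_nat_mul_pi]
    congr 1
    rw [hh, ht, hdab]; ring
  have e2 : cos ((10 * l + 3 - d) * h) = (-1) ^ a * cos ((3 - b) * (π / 5) - t') := by
    rw [← Real.cos_sub_nat_mul_pi, ← Real.cos_add_nat_mul_two_pi ((3 - b) * (π / 5) - t' - a * π) l]
    congr 1
    rw [hh, ht', hdab]; ring
  have e3 : ((-1 : ℝ)) ^ a * (-1) ^ a = 1 := by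
    rw [← mul_pow]; norm_num
  have key : 0 < cos ((3 - b) * (π / 5) - t') * sin (b * (π / 5) - t) := by
    interval_cases b
    · apply mul_pos_of_neg_of_neg
      · apply Real.cos_neg_of_pi_div_two_lt_of_lt <;> push_cast <;> linarith
      · apply Real.sin_neg_of_neg_of_neg_pi_lt <;> push_cast <;> linarith
    · apply mul_pos
      · apply Real.cos_pos_of_mem_Ioo; constructor <;> push_cast <;> linarith
      · apply Real.sin_pos_of_pos_of_lt_pi <;> push_cast <;> linarith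
    · apply mul_pos
      · apply Real.cos_pos_of_mem_Ioo; constructor <;> push_cast <;> linarith
      · apply Real.sin_pos_of_pos_of_lt_pi <;> push_cast <;> linarith
    · apply mul_pos
      · apply Real.cos_pos_of_mem_Ioo; constructor <;> push_cast <;> linarith
      · apply Real.sin_pos_of_pos_of_lt_pi <;> push_cast <;> linarith
    · apply mul_pos
      · apply Real.cos_pos_of_mem_Ioo; constructor <;> push_cast <;> linarith
      · apply Real.sin_pos_of_pos_of_lt_pi <;> push_cast <;> linarith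
  rw [e1, e2]
  calc (0 : ℝ) < cos ((3 - b) * (π / 5) - t') * sin (b * (π / 5) - t) := key
    _ = ((-1 : ℝ) ^ a * (-1) ^ a) * (cos ((3 - b) * (π / 5) - t') * sin (b * (π / 5) - t)) := by
        rw [e3, one_mul]
    _ = _ := by ring

theorem low_lt (l : ℕ) {h : ℝ} (hlt : h < π / 5) (hgt : (π / 5 - h) * (10 * l + 3) ≤ π / 10)
    (j : ℕ) (hj : j + 3 ≤ 10 * l + 4) :
    sin (h * (2 * j + 3 - (10 * l + 4 : ℕ))) < sin (h * ((10 * l + 4 : ℕ) - 1)) := by
  have h1 := trig_pos l hlt hgt (10 * l + 2 - j) (by omega) (by omega)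
  have h2 : sin (h * ((10 * l + 4 : ℕ) - 1)) - sin (h * (2 * j + 3 - (10 * l + 4 : ℕ)))
      = 2 * (cos ((10 * l + 3 - ((10 * l + 2 - j : ℕ) : ℝ)) * h)
          * sin (((10 * l + 2 - j : ℕ) : ℝ) * h)) := by
    rw [Real.sin_sub_sin, Nat.cast_sub (by omega)]
    push_cast
    rw [show (h * (10 * (l : ℝ) + 4 - 1) - h * (2 * j + 3 - (10 * l + 4))) / 2
      = (10 * l + 2 - j) * h by ring,
      show (h * (10 * (l : ℝ) + 4 - 1) + h * (2 * j + 3 - (10 * l + 4))) / 2
      = (10 * l + 3 - (10 * l + 2 - j)) * h by ring]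
    ring
  linarith

theorem h_gt (l : ℕ) (hl : 3 ≤ l) {h : ℝ} (hgt : (π / 5 - h) * (10 * l + 3) ≤ π / 10) :
    π / 6 < h := by
  have hπ := Real.pi_pos
  have hl' : (3 : ℝ) ≤ l := by exact_mod_cast hl
  by_contra hc
  push Not at hc
  have h1 : π / 30 ≤ π / 5 - h := by linarith
  have h2 : π / 30 * 33 ≤ (π / 5 - h) * (10 * l + 3) := by
    apply mul_le_mul h1 (by linarith) (by norm_num) (by linarith)
  linarith

theorem sin_pos' (l : ℕ) (hl : 3 ≤ l) {h : ℝ} (hle : h ≤ π / 5)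
    (hgt : (π / 5 - h) * (10 * l + 3) ≤ π / 10) : 0 < sin h := by
  have hπ := Real.pi_pos
  have := h_gt l hl hgt
  exact Real.sin_pos_of_pos_of_lt_pi (by linarith) (by linarith)

theorem cos_neg' (l : ℕ) (hl : 3 ≤ l) {h : ℝ} (hle : h ≤ π / 5)
    (hgt : (π / 5 - h) * (10 * l + 3) ≤ π / 10) : cos ((10 * l + 4 : ℕ) * h) < 0 := by
  have hπ := Real.pi_pos
  have h1 := h_gt l hl hgt
  have e1 : cos ((10 * l + 4 : ℕ) * h)
      = cos (4 * π / 5 - ((π / 5 - h) * (10 * l + 3) + (π / 5 - h))) := by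
    rw [← Real.cos_add_nat_mul_two_pi
      (4 * π / 5 - ((π / 5 - h) * (10 * l + 3) + (π / 5 - h))) l]
    congr 1; push_cast; ring
  rw [e1]
  have h2 : 0 ≤ (π / 5 - h) * (10 * l + 3) := mul_nonneg (by linarith) (by positivity)
  apply Real.cos_neg_of_pi_div_two_lt_of_lt <;> linarith

theorem R_pos (l : ℕ) (hl : 3 ≤ l) {h : ℝ} (hle : h ≤ π / 5)
    (hgt : (π / 5 - h) * (10 * l + 3) ≤ π / 10) : 0 < R (10 * l + 4) h := by
  have hπ := Real.pi_pos
  have h1 := h_gt l hl hgt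
  have h2 := sin_pos' l hl hle hgt
  have h3 := cos_neg' l hl hle hgt
  have h4 : cos (2 * h) < 1 / 2 := by
    rw [← Real.cos_pi_div_three]
    apply Real.cos_lt_cos_of_nonneg_of_le_pi <;> linarith
  unfold R
  apply div_pos_of_neg_of_neg (by linarith)
  exact mul_neg_of_pos_of_neg (by linarith) h3

theorem cos_two_pi_div_five : cos (2 * (π / 5)) = (√5 - 1) / 4 := by
  rw [Real.cos_two_mul, Real.cos_pi_div_five]
  have := Real.sq_sqrt (show (0 : ℝ) ≤ 5 by norm_num)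
  nlinarith

theorem f_right (l : ℕ) :
    R (10 * l + 4) (π / 5) * sin (π / 5 * ((10 * l + 4 : ℕ) - 1)) < 1 / 2 := by
  have hπ := Real.pi_pos
  have e1 : cos ((10 * l + 4 : ℕ) * (π / 5)) = - cos (π / 5) := by
    rw [← Real.cos_pi_sub, ← Real.cos_add_nat_mul_two_pi (π - π / 5) l]
    congr 1; push_cast; ring
  have e2 : sin (π / 5 * ((10 * l + 4 : ℕ) - 1)) = 2 * sin (π / 5) * cos (π / 5) := by
    rw [← Real.sin_two_mul, ← Real.sin_pi_sub (2 * (π / 5)),
      ← Real.sin_add_nat_mul_two_pi (π - 2 * (π / 5)) l]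
    congr 1; push_cast; ring
  have h1 : 0 < sin (π / 5) := Real.sin_pos_of_pos_of_lt_pi (by linarith) (by linarith)
  have h2 : 0 < cos (π / 5) := Real.cos_pos_of_mem_Ioo ⟨by linarith, by linarith⟩
  unfold R
  rw [e1, e2, cos_two_pi_div_five]
  have h5 : 2 < √5 := by
    rw [show (2 : ℝ) = √4 by rw [show (4 : ℝ) = 2 ^ 2 by norm_num]; simp]
    exact Real.sqrt_lt_sqrt (by norm_num) (by norm_num)
  have e3 : (2 * ((√5 - 1) / 4) - 1) / (2 * sin (π / 5) * -cos (π / 5))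
      * (2 * sin (π / 5) * cos (π / 5)) = 1 - 2 * ((√5 - 1) / 4) := by
    field_simp
    ring
  rw [e3]; linarith

theorem f_left (l : ℕ) (hl : 3 ≤ l) {h : ℝ} (hh : (π / 5 - h) * (10 * l + 3) = π / 10) :
    1 / 2 < R (10 * l + 4) h * sin (h * ((10 * l + 4 : ℕ) - 1)) := by
  have hπ := Real.pi_pos
  have h1 := h_gt l hl hh.le
  have hl' : (3 : ℝ) ≤ l := by exact_mod_cast hl
  have hle : h ≤ π / 5 := by
    by_contra hc
    push Not at hc
    have : (π / 5 - h) * (10 * l + 3) < 0 := mul_neg_of_neg_of_pos (by linarith) (by positivity)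
    linarith
  have h2 := sin_pos' l hl hle hh.le
  have e1 : sin (h * ((10 * l + 4 : ℕ) - 1)) = 1 := by
    have : h * (((10 * l + 4 : ℕ) : ℝ) - 1) = π / 2 + l * (2 * π) := by push_cast; linarith
    rw [this, Real.sin_add_nat_mul_two_pi, Real.sin_pi_div_two]
  have e2 : cos ((10 * l + 4 : ℕ) * h) = - sin h := by
    have : ((10 * l + 4 : ℕ) : ℝ) * h = h + π / 2 + l * (2 * π) := by push_cast; linarith
    rw [this, Real.cos_add_nat_mul_two_pi, Real.cos_add_pi_div_two]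
  have e3 : cos (2 * h) = 1 - 2 * sin h ^ 2 := by
    rw [Real.cos_two_mul, Real.cos_sq']; ring
  have h3 : cos (2 * h) < 1 / 3 := by
    set e := π / 5 - h with he
    have he0 : 0 ≤ e := by linarith
    have he1 : e * 33 ≤ π / 10 := by
      rw [← hh]; exact mul_le_mul_of_nonneg_left (by linarith) he0
    have e4 : cos (2 * h) = cos (2 * (π / 5)) * cos (2 * e) + sin (2 * (π / 5)) * sin (2 * e) := by
      rw [← Real.cos_sub]; congr 1; rw [he]; ring
    have h5 : √5 < 2.2361 := by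
      rw [Real.sqrt_lt' (by norm_num)]; norm_num
    have h5' : 1 < √5 := by
      rw [Real.lt_sqrt (by norm_num)]; norm_num
    have h6 : sin (2 * e) ≤ 2 * e := Real.sin_le (by linarith)
    have h7 : 0 ≤ sin (2 * e) := Real.sin_nonneg_of_nonneg_of_le_pi (by linarith) (by linarith)
    have h8 := Real.cos_le_one (2 * e)
    have h9 := Real.sin_le_one (2 * (π / 5))
    have hπ2 := Real.pi_lt_d2
    rw [e4, cos_two_pi_div_five]
    have a1 : (√5 - 1) / 4 * cos (2 * e) ≤ (√5 - 1) / 4 := by nlinarith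
    have a2 : sin (2 * (π / 5)) * sin (2 * e) ≤ 2 * e := by nlinarith
    nlinarith
  unfold R
  rw [e1, e2, e3, mul_one]
  rw [e3] at h3
  have h10 : 0 < 2 * sin h ^ 2 := by positivity
  have e5 : (2 * (1 - 2 * sin h ^ 2) - 1) / (2 * sin h * -sin h)
      = (4 * sin h ^ 2 - 1) / (2 * sin h ^ 2) := by
    field_simp
    ring
  rw [e5, lt_div_iff₀ h10]
  linarith

theorem exists_good (l : ℕ) (hl : 3 ≤ l) :
    ∃ α : ℝ, 1 / 6 < α ∧ α < 1 / 5 ∧ Irrational α ∧ Good (10 * l + 4) (π * α) := by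
  have hπ := Real.pi_pos
  have hl' : (3 : ℝ) ≤ l := by exact_mod_cast hl
  set h1 : ℝ := π / 5 - π / 10 / (10 * l + 3) with hh1
  have hpos : (0 : ℝ) < 10 * l + 3 := by positivity
  have h1eq : (π / 5 - h1) * (10 * l + 3) = π / 10 := by
    rw [hh1]; field_simp; ring
  have h1lt : h1 < π / 5 := by
    rw [hh1]
    have : 0 < π / 10 / (10 * l + 3) := by positivity
    linarith
  have hrange : ∀ h, h1 ≤ h → (π / 5 - h) * (10 * l + 3) ≤ π / 10 := by
    intro h hh
    rw [← h1eq]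
    exact mul_le_mul_of_nonneg_right (by linarith) hpos.le
  have hRc : ∀ h, h1 ≤ h → h ≤ π / 5 → ContinuousAt (R (10 * l + 4)) h := by
    intro h ha hb
    have s1 := (sin_pos' l hl hb (hrange h ha)).ne'
    have s2 := (cos_neg' l hl hb (hrange h ha)).ne
    unfold R
    apply ContinuousAt.div
    · fun_prop
    · fun_prop
    · exact mul_ne_zero (mul_ne_zero two_ne_zero s1) s2
  set f : ℝ → ℝ := fun h => R (10 * l + 4) h * sin (h * ((10 * l + 4 : ℕ) - 1)) with hf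
  have hfc : ∀ h, h1 ≤ h → h ≤ π / 5 → ContinuousAt f h := by
    intro h ha hb
    exact (hRc h ha hb).mul (by fun_prop)
  have hfcon : ContinuousOn f (Icc h1 (π / 5)) := fun h hh =>
    (hfc h hh.1 hh.2).continuousWithinAt
  have hfl : 1 / 2 < f h1 := f_left l hl h1eq
  have hfr : f (π / 5) < 1 / 2 := f_right l
  set A : Set ℝ := {h | h ∈ Icc h1 (π / 5) ∧ f h ≤ 1 / 2} with hA
  have hAc : IsClosed A := by
    have : A = Icc h1 (π / 5) ∩ f ⁻¹' (Iic (1 / 2)) := by
      ext x; simp [hA]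
    rw [this]
    exact hfcon.preimage_isClosed_of_isClosed isClosed_Icc isClosed_Iic
  obtain ⟨x, hx, hfx⟩ : ∃ x ∈ Ioo h1 (π / 5), f x = 1 / 2 := by
    have := intermediate_value_Ioo' h1lt.le hfcon
    exact this ⟨hfr, hfl⟩
  have hAne : A.Nonempty := ⟨x, ⟨hx.1.le, hx.2.le⟩, hfx.le⟩
  have hAb : BddBelow A := ⟨h1, fun y hy => hy.1.1⟩
  set hs := sInf A with hhs
  have hsA : hs ∈ A := hAc.csInf_mem hAne hAb
  have hs1 : h1 < hs := by
    rcases eq_or_lt_of_le hsA.1.1 with h | h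
    · exfalso
      have := hsA.2
      rw [← h] at this
      linarith
    · exact h
  have hs5 : hs < π / 5 := lt_of_le_of_lt (csInf_le hAb ⟨⟨hx.1.le, hx.2.le⟩, hfx.le⟩) hx.2
  have hgt : ∀ h, h1 ≤ h → h < hs → 1 / 2 < f h := by
    intro h ha hb
    by_contra hc
    push Not at hc
    have : h ∈ A := ⟨⟨ha, by linarith⟩, hc⟩
    have := csInf_le hAb this
    linarith
  have hRs := R_pos l hl hs5.le (hrange hs hs1.le)
  -- the open conditions
  have ev1 : ∀ᶠ h in 𝓝 hs, h1 < h := eventually_gt_nhds hs1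
  have ev2 : ∀ᶠ h in 𝓝 hs, f h < 3 / 2 := by
    apply (hfc hs hs1.le hs5.le).eventually_lt_const
    have := hsA.2
    linarith
  have ev3 : ∀ᶠ h in 𝓝 hs, ∀ j ∈ Finset.range (10 * l + 2),
      R (10 * l + 4) h * sin (h * (2 * j + 3 - (10 * l + 4 : ℕ))) < 1 / 2 := by
    rw [Filter.eventually_all_finset]
    intro j hj
    have hj' := Finset.mem_range.1 hj
    have hc : ContinuousAt (fun h => R (10 * l + 4) h
        * sin (h * (2 * j + 3 - (10 * l + 4 : ℕ)))) hs :=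
      (hRc hs hs1.le hs5.le).mul (by fun_prop)
    apply hc.eventually_lt_const
    have h2 := low_lt l hs5 (hrange hs hs1.le) j (by omega)
    have h3 := mul_lt_mul_of_pos_left h2 hRs
    exact lt_of_lt_of_le h3 hsA.2
  have ev : ∀ᶠ h in 𝓝[<] hs, h1 < h ∧ f h < 3 / 2 ∧ (∀ j ∈ Finset.range (10 * l + 2),
      R (10 * l + 4) h * sin (h * (2 * j + 3 - (10 * l + 4 : ℕ))) < 1 / 2) :=
    (ev1.and (ev2.and ev3)).filter_mono nhdsWithin_le_nhds
  obtain ⟨a, ha, hsub⟩ := (mem_nhdsLT_iff_exists_Ioo_subset).1 ev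
  obtain ⟨α, hα, h2, h3⟩ := exists_irrational_btwn
    (show a / π < hs / π by exact div_lt_div_of_pos_right ha hπ)
  have b1 : a < π * α := by rw [div_lt_iff₀ hπ] at h2; linarith
  have b2 : π * α < hs := by rw [lt_div_iff₀ hπ] at h3; linarith
  obtain ⟨c1, c2, c3⟩ := hsub ⟨b1, b2⟩
  have hr := hrange _ c1.le
  refine ⟨α, ?_, ?_, hα, ⟨(sin_pos' l hl (by linarith) hr).ne',
    (cos_neg' l hl (by linarith) hr).ne, ?_, hgt _ c1.le b2, c2⟩⟩
  · have := h_gt l hl hr
    by_contra hc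
    push Not at hc
    nlinarith
  · by_contra hc
    push Not at hc
    nlinarith
  · intro j hj
    exact c3 j (Finset.mem_range.2 (by omega))

/-- The family of periodic walks. -/
theorem family (l : ℕ) (hl : 3 ≤ l) : ∃ α : ℝ, 1 / 6 < α ∧ α < 1 / 5 ∧ Irrational α ∧
    ∃ (w : ℂ) (Z : ℕ → ℂ) (ε : ℕ → ℤ), IsGreedyWalk α w Z ε ∧
      IsLeast (evPeriods ε) (20 * l + 8) := by
  obtain ⟨α, h1, h2, h3, h4⟩ := exists_good l hl
  obtain ⟨w, Z, ε, h5, h6⟩ := walk_of_good h4 (by omega)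
  refine ⟨α, h1, h2, h3, w, Z, ε, h5, ?_⟩
  rwa [show 20 * l + 8 = 2 * (10 * l + 4) by ring]

end Q180.Walk
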